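import Pool.Agent.helper37.MA.Spec

/-!
# Project MA (MP_7e34bc_co, Q2, middle range): row CHS
-/

set_option autoImplicit false

namespace Pool.Agent.helper37.MA

open Finset Pool.Agent.NK Pool.Agent.helper37.NF

theorem CHS_real (m P Q : ℕ) (hm : 0 < m) (h : m * P ^ 2 ≤ 8 * Q ^ 2) :
    (P : ℝ) ≤ Real.sqrt (8 / m) * Q := by
  have hmR : (0 : ℝ) < m := by exact_mod_cast hm
  have h' : (m : ℝ) * (P : ℝ) ^ 2 ≤ 8 * (Q : ℝ) ^ 2 := by exact_mod_cast h
  have h1 : (P : ℝ) ^ 2 ≤ 8 / m * (Q : ℝ) ^ 2 := by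
    rw [div_mul_eq_mul_div, le_div_iff₀ hmR]
    linarith
  have h2 : (P : ℝ) ≤ Real.sqrt (8 / m * (Q : ℝ) ^ 2) := Real.le_sqrt_of_sq_le h1
  rw [Real.sqrt_mul (by positivity), Real.sqrt_sq (by positivity)] at h2
  exact h2

theorem CHS_vand (a b i j : ℕ) : a.choose i * b.choose j ≤ (a + b).choose (i + j) := by
  rw [Nat.add_choose_eq]
  exact Finset.single_le_sum (f := fun ij : ℕ × ℕ => a.choose ij.1 * b.choose ij.2)
    (fun _ _ => Nat.zero_le _) (mem_antidiagonal.mpr (show (i, j).1 + (i, j).2 = i + j from rfl))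

theorem CHS_big (h : HYP_stmt) (m a b i j : ℕ) (hm : 4 ≤ m) (hma : m ≤ a) (hmb : m ≤ b)
    (h4 : a + b ≤ 4 * (i + j)) (h2 : 2 * (i + j) ≤ a + b) :
    m * (a.choose i * b.choose j) ^ 2 ≤ 8 * ((a + b).choose (i + j)) ^ 2 := by
  rcases le_total a b with hab | hab
  · have h1 := h a b (i + j) i (by omega) hab h4 h2 (by omega)
    unfold ff at h1
    rw [Nat.add_sub_cancel_left] at h1
    exact (Nat.mul_le_mul_right _ hma).trans h1
  · have h1 := h b a (i + j) j (by omega) hab (by omega) (by omega) (by omega)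
    unfold ff at h1
    rw [Nat.add_sub_cancel, Nat.mul_comm (b.choose j), Nat.add_comm b a] at h1
    exact (Nat.mul_le_mul_right _ hmb).trans h1

theorem CHS (h : HYP_stmt) : CHS_stmt := by
  intro m a b k C hm hma hmb hk hC hch
  have hinj : ∀ c ∈ C, ∀ d ∈ C, c.1 + c.2 = d.1 + d.2 → c = d := by
    intro c hc d hd hcd
    by_contra hne
    rcases hch c hc d hd hne with h1 | h1 <;> omega
  have hσ : 0 ≤ Real.sqrt (8 / (m : ℝ)) := Real.sqrt_nonneg _
  have key : ∀ c ∈ C, ((a.choose c.1 * b.choose c.2 : ℕ) : ℝ) ≤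
      Real.sqrt (8 / m) * ((a + b).choose (c.1 + c.2) : ℝ) +
      (if c.1 + c.2 ∈ range ((a + b) / 4 + 1) then ((a + b).choose (c.1 + c.2) : ℝ) else 0) := by
    intro c hc
    obtain ⟨h1, h2, h3⟩ := hC c hc
    have hpos : (0 : ℝ) ≤ ((a + b).choose (c.1 + c.2) : ℝ) := Nat.cast_nonneg _
    by_cases h4 : c.1 + c.2 ∈ range ((a + b) / 4 + 1)
    · rw [if_pos h4]
      have h5 : ((a.choose c.1 * b.choose c.2 : ℕ) : ℝ) ≤ ((a + b).choose (c.1 + c.2) : ℝ) := by
        exact_mod_cast CHS_vand a b c.1 c.2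
      have h6 := mul_nonneg hσ hpos
      linarith
    · rw [if_neg h4, add_zero]
      rw [mem_range] at h4
      exact CHS_real m _ _ (by omega)
        (CHS_big h m a b c.1 c.2 hm hma hmb (by omega) (by omega))
  have himg : ∀ g : ℕ → ℝ, ∑ c ∈ C, g (c.1 + c.2) = ∑ t ∈ C.image (fun c => c.1 + c.2), g t := by
    intro g
    rw [sum_image]
    intro c hc d hd hcd
    exact hinj c hc d hd hcd
  have hsub : C.image (fun c : ℕ × ℕ => c.1 + c.2) ⊆ range (k + 1) := by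
    intro t ht
    obtain ⟨c, hc, rfl⟩ := mem_image.mp ht
    have := (hC c hc).2.2
    rw [mem_range]
    omega
  have hs1 : ∑ c ∈ C, ((a + b).choose (c.1 + c.2) : ℝ) ≤
      ∑ t ∈ range (k + 1), ((a + b).choose t : ℝ) := by
    rw [himg (fun t => ((a + b).choose t : ℝ))]
    exact sum_le_sum_of_subset_of_nonneg hsub (fun _ _ _ => Nat.cast_nonneg _)
  have hs2 : ∑ c ∈ C, (if c.1 + c.2 ∈ range ((a + b) / 4 + 1) then
      ((a + b).choose (c.1 + c.2) : ℝ) else 0) ≤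
      ∑ t ∈ range ((a + b) / 4 + 1), ((a + b).choose t : ℝ) := by
    rw [himg (fun t => if t ∈ range ((a + b) / 4 + 1) then ((a + b).choose t : ℝ) else 0),
      ← sum_filter]
    exact sum_le_sum_of_subset_of_nonneg (fun t ht => (mem_filter.mp ht).2)
      (fun _ _ _ => Nat.cast_nonneg _)
  have h0 := sum_le_sum key
  rw [sum_add_distrib, ← mul_sum] at h0
  have h7 := mul_le_mul_of_nonneg_left hs1 hσ
  have e1 : ((∑ c ∈ C, a.choose c.1 * b.choose c.2 : ℕ) : ℝ)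
      = ∑ c ∈ C, ((a.choose c.1 * b.choose c.2 : ℕ) : ℝ) := Nat.cast_sum _ _
  have e2 : ((∑ t ∈ range (k + 1), (a + b).choose t : ℕ) : ℝ)
      = ∑ t ∈ range (k + 1), ((a + b).choose t : ℝ) := Nat.cast_sum _ _
  have e3 : ((∑ t ∈ range ((a + b) / 4 + 1), (a + b).choose t : ℕ) : ℝ)
      = ∑ t ∈ range ((a + b) / 4 + 1), ((a + b).choose t : ℝ) := Nat.cast_sum _ _
  rw [e1, e2, e3]
  linarith

end Pool.Agent.helper37.MA
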